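import Mathlib

/-!
# Nets, symmetric nets, their automorphisms, classical symmetric nets
-/

set_option autoImplicit false

namespace Pool.Agent.Q274.Net

/-- `(s, r, μ)`-nets (`s ≥ 2`, `μ ≥ 1`, `r ≥ 3`) as incidence structures: `P` is the set of the points,
`β` the set of the blocks, `I p b` means that the point `p` lies on the block `b`. The blocks are
determined by the sets of their points. `k b` is the number of the parallel class of `b`; each parallel
class is a partition of the points: for every point `p` and class `i` there is exactly one block of the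
class through `p`. -/
structure IsNet {P β : Type} [Fintype P] (I : P → β → Prop) (s r μ : ℕ) : Prop where
  two_le : 2 ≤ s
  one_le : 1 ≤ μ
  three_le : 3 ≤ r
  card_points : Fintype.card P = s ^ 2 * μ
  simple : ∀ b c : β, (∀ p, I p b ↔ I p c) → b = c
  card_block : ∀ b : β, Nat.card {p // I p b} = s * μ
  classes : ∃ k : β → Fin r, (∀ (p : P) (i : Fin r), ∃! b, k b = i ∧ I p b) ∧
    ∀ b c : β, k b ≠ k c → Nat.card {p // I p b ∧ I p c} = μ

/-- symmetric `(s, μ)`-nets: `(s, s μ, μ)`-nets whose dual structure is again an `(s, s μ, μ)`-net -/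
def IsSymmetricNet {P β : Type} [Fintype P] [Fintype β] (I : P → β → Prop) (s μ : ℕ) : Prop :=
  IsNet I s (s * μ) μ ∧ IsNet (fun b p => I p b) s (s * μ) μ

/-- the permutation `g` of the points is an automorphism: it maps every block onto a block -/
def IsAutomorphism {P β : Type} (I : P → β → Prop) (g : Equiv.Perm P) : Prop :=
  ∀ b : β, ∃ c : β, {p | I p c} = g '' {p | I p b}

/-- two distinct points are joined if some block contains both -/
def Joined {P β : Type} (I : P → β → Prop) (p q : P) : Prop :=
  p ≠ q ∧ ∃ b : β, I p b ∧ I q b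

/-- two distinct points which are not joined -/
def NonJoined {P β : Type} (I : P → β → Prop) (p q : P) : Prop :=
  p ≠ q ∧ ¬ ∃ b : β, I p b ∧ I q b

/-- the group `G` of permutations of the points is transitive on the unordered pairs `{p, q}` of points
with `R p q` -/
def TransitiveOnPairs {P : Type} (G : Subgroup (Equiv.Perm P)) (R : P → P → Prop) : Prop :=
  ∀ p q p' q' : P, R p q → R p' q' → ∃ g ∈ G, (g p = p' ∧ g q = q') ∨ (g p = q' ∧ g q = p')

/-- The hyperplanes of the affine space `AG(d, K)` which are not parallel to the line `K u`: a hyperplane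
`{x | a · x = c}`, `a ≠ 0`, contains a translate of the line if and only if `a · u = 0`. -/
def TransversalHyperplane (K : Type) [Field K] (d : ℕ) (u : Fin d → K) : Type :=
  {h : Set (Fin d → K) // ∃ (a : Fin d → K) (c : K), a ≠ 0 ∧ a ⬝ᵥ u ≠ 0 ∧ h = {x | a ⬝ᵥ x = c}}

/-- The incidence structure `I` is isomorphic to a classical symmetric net: points of `AG(d, K)` and
the hyperplanes which are not parallel to the line `K u`, for a finite field `K`, `d ≥ 2`, `u ≠ 0`. -/
def IsClassical {P β : Type} (I : P → β → Prop) : Prop :=
  ∃ (K : Type) (_ : Field K) (_ : Fintype K) (d : ℕ) (u : Fin d → K), 2 ≤ d ∧ u ≠ 0 ∧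
    ∃ (e : P ≃ (Fin d → K)) (f : β ≃ TransversalHyperplane K d u),
      ∀ p b, I p b ↔ e p ∈ (f b).1

/-- There is a symmetric `(s, μ)`-net which is not classical and which has a group of automorphisms
that is transitive on the pairs of joined points and also transitive on the pairs of distinct non-joined
points. -/
def Counterexample (s μ : ℕ) : Prop :=
  ∃ (P β : Type) (_ : Fintype P) (_ : Fintype β) (I : P → β → Prop) (G : Subgroup (Equiv.Perm P)),
    IsSymmetricNet I s μ ∧ (∀ g ∈ G, IsAutomorphism I g) ∧
    TransitiveOnPairs G (Joined I) ∧ TransitiveOnPairs G (NonJoined I) ∧ ¬ IsClassical I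

end Pool.Agent.Q274.Net
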