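import Mathlib
import Pool.Agent.Q274.Net.Def

set_option autoImplicit false

namespace Pool.Agent.Q274.Net

open Finset

/-- incidence of the net of a matrix with entries in `ℤ / s` -/
def Inc {s : ℕ} {X Y : Type} (h : X → Y → ZMod s) (p : X × ZMod s) (b : Y × ZMod s) : Prop :=
  p.2 + h p.1 b.1 = b.2

theorem flip_inc {s : ℕ} {X Y : Type} (h : X → Y → ZMod s) :
    (fun b p => Inc h p b) = Inc (fun y x => - h x y) := by
  funext b p
  unfold Inc
  refine propext ⟨fun e => ?_, fun e => ?_⟩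
  · rw [← e]; ring
  · rw [← e]; ring

/-- generalized Hadamard matrices, half of the conditions -/
structure HalfGH {s : ℕ} {X Y : Type} [Fintype X] [Fintype Y] (h : X → Y → ZMod s) (μ : ℕ) :
    Prop where
  cX : Fintype.card X = s * μ
  cY : Fintype.card Y = s * μ
  col : ∀ y y', y ≠ y' → ∀ d, Nat.card {x // h x y - h x y' = d} = μ

theorem isNet {s : ℕ} [NeZero s] {X Y : Type} [Fintype X] [Fintype Y] {h : X → Y → ZMod s} {μ : ℕ}
    (hs : 2 ≤ s) (hμ : 1 ≤ μ) (h3 : 3 ≤ s * μ) (H : HalfGH h μ) : IsNet (Inc h) s (s * μ) μ := by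
  have hblock : ∀ b : Y × ZMod s, Nat.card {p // Inc h p b} = s * μ := by
    intro b
    rw [← H.cX, ← Nat.card_eq_fintype_card]
    refine Nat.card_congr
      { toFun := fun p => p.1.1
        invFun := fun x => ⟨(x, b.2 - h x b.1), by unfold Inc; ring⟩
        left_inv := ?_
        right_inv := fun x => rfl }
    rintro ⟨⟨x, a⟩, e⟩
    unfold Inc at e
    refine Subtype.ext (Prod.ext rfl ?_)
    simp only at e ⊢
    rw [← e]; ring
  have hmeet : ∀ b c : Y × ZMod s, b.1 ≠ c.1 → Nat.card {p // Inc h p b ∧ Inc h p c} = μ := by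
    intro b c hbc
    rw [← H.col b.1 c.1 hbc (b.2 - c.2)]
    refine Nat.card_congr
      { toFun := fun p => ⟨p.1.1, ?_⟩
        invFun := fun x => ⟨(x.1, b.2 - h x.1 b.1), ?_, ?_⟩
        left_inv := ?_
        right_inv := fun x => rfl }
    · obtain ⟨⟨x, a⟩, e1, e2⟩ := p
      unfold Inc at e1 e2
      simp only at e1 e2 ⊢
      rw [← e1, ← e2]; ring
    · unfold Inc; ring
    · have := x.2
      unfold Inc
      simp only
      linear_combination -this
    · rintro ⟨⟨x, a⟩, e1, e2⟩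
      unfold Inc at e1
      refine Subtype.ext (Prod.ext rfl ?_)
      simp only at e1 ⊢
      rw [← e1]; ring
  refine ⟨hs, hμ, h3, ?_, ?_, hblock, ?_⟩
  · rw [Fintype.card_prod, H.cX, ZMod.card]; ring
  · intro b c hbc
    have hpos : 0 < Nat.card {p // Inc h p b} := by rw [hblock b]; positivity
    by_cases h1 : b.1 = c.1
    · obtain ⟨⟨p, hp⟩⟩ := (Nat.card_pos_iff.1 hpos).1
      have hp' := (hbc p).1 hp
      unfold Inc at hp hp'
      refine Prod.ext h1 ?_
      rw [← hp, ← hp', h1]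
    · exfalso
      have h2 := hmeet b c h1
      have h4 : Nat.card {p // Inc h p b ∧ Inc h p c} = Nat.card {p // Inc h p b} := by
        refine Nat.card_congr (Equiv.subtypeEquivRight fun p => ?_)
        rw [← hbc p, and_self_iff]
      rw [h2, hblock b] at h4
      nlinarith
  · let φ : Y ≃ Fin (s * μ) := Fintype.equivFinOfCardEq H.cY
    refine ⟨fun b => φ b.1, ?_, ?_⟩
    · intro p i
      refine ⟨(φ.symm i, p.2 + h p.1 (φ.symm i)), ⟨?_, rfl⟩, ?_⟩
      · simp
      · rintro ⟨y, c⟩ ⟨h1, h2⟩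
        unfold Inc at h2
        simp only at h1 h2
        have : y = φ.symm i := by rw [← h1, Equiv.symm_apply_apply]
        subst this
        rw [h2]
    · intro b c hbc
      exact hmeet b c fun e => hbc (by simp only [e])

theorem isSymmetricNet {s : ℕ} [NeZero s] {X Y : Type} [Fintype X] [Fintype Y]
    {h : X → Y → ZMod s} {μ : ℕ} (hs : 2 ≤ s) (hμ : 1 ≤ μ) (h3 : 3 ≤ s * μ) (H : HalfGH h μ)
    (H' : HalfGH (fun y x => h x y) μ) : IsSymmetricNet (Inc h) s μ := by
  refine ⟨isNet hs hμ h3 H, ?_⟩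
  rw [flip_inc]
  refine isNet hs hμ h3 ⟨H.cY, H.cX, fun y y' hy d => ?_⟩
  rw [← H'.col y y' hy (-d)]
  refine Nat.card_congr (Equiv.subtypeEquivRight fun x => ?_)
  constructor
  · intro e; rw [← e]; ring
  · intro e
    linear_combination -e

/-- the automorphism group -/
def autGroup {P β : Type} [Finite P] (I : P → β → Prop) : Subgroup (Equiv.Perm P) where
  carrier := {g | (∀ b : β, ∃ c : β, {p | I p c} = g '' {p | I p b}) ∧
    ∀ b : β, ∃ c : β, {p | I p c} = g.symm '' {p | I p b}}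
  one_mem' := ⟨fun b => ⟨b, by simp⟩, fun b => ⟨b, by
    show _ = ⇑(Equiv.refl P).symm '' _
    simp⟩⟩
  mul_mem' := by
    rintro g h ⟨hg, hg'⟩ ⟨hh, hh'⟩
    refine ⟨fun b => ?_, fun b => ?_⟩
    · obtain ⟨c, hc⟩ := hh b
      obtain ⟨d, hd⟩ := hg c
      refine ⟨d, ?_⟩
      rw [hd, hc, Set.image_image]
      rfl
    · obtain ⟨c, hc⟩ := hg' b
      obtain ⟨d, hd⟩ := hh' c
      refine ⟨d, ?_⟩
      rw [hd, hc, Set.image_image]
      rfl
  inv_mem' := by
    rintro g ⟨h1, h2⟩
    exact ⟨h2, fun b => h1 b⟩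

theorem autGroup_isAut {P β : Type} [Finite P] (I : P → β → Prop) :
    ∀ g ∈ autGroup I, IsAutomorphism I g := fun _ hg b => hg.1 b

/-- a monomial pair of maps gives an automorphism -/
theorem exists_aut {s : ℕ} [NeZero s] {X Y : Type} [Finite X] [Finite Y] (h : X → Y → ZMod s)
    (σ : X → X) (τ : Y → Y) (f : X → ZMod s) (g : Y → ZMod s) (u : ZMod s)
    (hσ : Function.Injective σ) (hτ : Function.Injective τ) (hu : u * u = 1)
    (H : ∀ x y, h (σ x) (τ y) = u * h x y + f x + g y) :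
    ∃ a ∈ autGroup (Inc h), ∀ x t, a (x, t) = (σ x, u * t - f x) := by
  have hinj : Function.Injective (fun p : X × ZMod s => (σ p.1, u * p.2 - f p.1)) := by
    rintro ⟨x, t⟩ ⟨x', t'⟩ e
    simp only [Prod.mk.injEq] at e
    have e1 := hσ e.1
    subst e1
    refine Prod.ext rfl ?_
    have e2 : u * t = u * t' := by linear_combination e.2
    calc t = (u * u) * t := by rw [hu, one_mul]
      _ = u * (u * t) := by ring
      _ = u * (u * t') := by rw [e2]
      _ = (u * u) * t' := by ring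
      _ = t' := by rw [hu, one_mul]
  have hbij := Finite.injective_iff_bijective.1 hinj
  have key : ∀ (p : X × ZMod s) (b : Y × ZMod s), Inc h p b ↔
      Inc h (σ p.1, u * p.2 - f p.1) (τ b.1, u * b.2 + g b.1) := by
    intro p b
    unfold Inc
    simp only [H]
    constructor
    · intro e; rw [← e]; ring
    · intro e
      have e2 : u * (p.2 + h p.1 b.1) = u * b.2 := by linear_combination e
      calc p.2 + h p.1 b.1 = (u * u) * (p.2 + h p.1 b.1) := by rw [hu, one_mul]
        _ = u * (u * (p.2 + h p.1 b.1)) := by ring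
        _ = u * (u * b.2) := by rw [e2]
        _ = (u * u) * b.2 := by ring
        _ = b.2 := by rw [hu, one_mul]
  have hinj' : Function.Injective (fun b : Y × ZMod s => (τ b.1, u * b.2 + g b.1)) := by
    rintro ⟨x, t⟩ ⟨x', t'⟩ e
    simp only [Prod.mk.injEq] at e
    have e1 := hτ e.1
    subst e1
    refine Prod.ext rfl ?_
    have e2 : u * t = u * t' := by linear_combination e.2
    calc t = (u * u) * t := by rw [hu, one_mul]
      _ = u * (u * t) := by ring
      _ = u * (u * t') := by rw [e2]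
      _ = (u * u) * t' := by ring
      _ = t' := by rw [hu, one_mul]
  have hsurj' := (Finite.injective_iff_bijective.1 hinj').2
  refine ⟨Equiv.ofBijective _ hbij, ⟨fun b => ?_, fun b => ?_⟩, fun x t => rfl⟩
  · refine ⟨(τ b.1, u * b.2 + g b.1), ?_⟩
    ext q
    constructor
    · intro hq
      obtain ⟨p, rfl⟩ := hbij.2 q
      exact ⟨p, (key p b).2 hq, rfl⟩
    · rintro ⟨p, hp, rfl⟩
      exact (key p b).1 hp
  · obtain ⟨c, rfl⟩ := hsurj' b
    refine ⟨c, ?_⟩
    ext q
    constructor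
    · intro hq
      exact ⟨Equiv.ofBijective _ hbij q, (key q c).1 hq, Equiv.symm_apply_apply _ _⟩
    · rintro ⟨p, hp, rfl⟩
      obtain ⟨q, rfl⟩ := hbij.2 p
      have h1 : (Equiv.ofBijective _ hbij).symm (σ q.1, u * q.2 - f q.1) = q :=
        (Equiv.symm_apply_eq _).2 rfl
      rw [h1]
      exact (key q c).2 hp

/-- the translations -/
theorem exists_transl {s : ℕ} [NeZero s] {X Y : Type} [Finite X] [Finite Y] (h : X → Y → ZMod s)
    (c : ZMod s) : ∃ a ∈ autGroup (Inc h), ∀ x t, a (x, t) = (x, t + c) := by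
  obtain ⟨a, ha, h1⟩ := exists_aut h id id (fun _ => -c) (fun _ => c) 1 Function.injective_id
    Function.injective_id (by ring) (fun x y => by simp)
  refine ⟨a, ha, fun x t => ?_⟩
  rw [h1]
  simp

/-- joined points have different first coordinates -/
theorem fst_ne {s : ℕ} {X Y : Type} {h : X → Y → ZMod s} {p q : X × ZMod s}
    (H : Joined (Inc h) p q) : p.1 ≠ q.1 := by
  obtain ⟨h1, b, h2, h3⟩ := H
  intro e
  unfold Inc at h2 h3
  rw [← e] at h3
  exact h1 (Prod.ext e (by
    have := h2.trans h3.symm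
    exact add_right_cancel this))

theorem fst_eq {s : ℕ} [NeZero s] {X Y : Type} [Fintype X] [Fintype Y] {h : X → Y → ZMod s} {μ : ℕ}
    (hμ : 1 ≤ μ) (H' : HalfGH (fun y x => h x y) μ) {p q : X × ZMod s}
    (H : NonJoined (Inc h) p q) : p.1 = q.1 ∧ p.2 ≠ q.2 := by
  obtain ⟨h1, h2⟩ := H
  have h3 : p.1 = q.1 := by
    by_contra hne
    have h4 := H'.col p.1 q.1 hne (q.2 - p.2)
    have h5 : 0 < Nat.card {y // h p.1 y - h q.1 y = q.2 - p.2} := by rw [h4]; exact hμ
    obtain ⟨⟨y, hy⟩⟩ := (Nat.card_pos_iff.1 h5).1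
    refine h2 ⟨(y, p.2 + h p.1 y), rfl, ?_⟩
    unfold Inc
    simp only
    linear_combination -hy
  exact ⟨h3, fun e => h1 (Prod.ext h3 e)⟩

theorem card_isClassical {P β : Type} [Fintype P] {I : P → β → Prop} (h : IsClassical I) :
    ∃ q d : ℕ, IsPrimePow q ∧ 2 ≤ d ∧ Fintype.card P = q ^ d := by
  obtain ⟨K, _, _, d, u, hd, -, e, -⟩ := h
  refine ⟨Fintype.card K, d, ?_, hd, ?_⟩
  · exact FiniteField.isPrimePow_card K
  · classical
    rw [Fintype.card_congr e, Fintype.card_fun, Fintype.card_fin]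

end Pool.Agent.Q274.Net
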