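import Mathlib
import Pool.Agent.Q274.Net.GH

set_option autoImplicit false
set_option linter.unusedSectionVars false

namespace Pool.Agent.Q274.Net

open Finset

section Paley

variable {F : Type} [Field F] [Fintype F] [DecidableEq F]

theorem char_ne_two (hF : Fintype.card F % 4 = 3) : ringChar F ≠ 2 := by
  intro h
  have := FiniteField.even_card_of_char_two h
  omega

theorem chi_neg_one (hF : Fintype.card F % 4 = 3) : quadraticChar F (-1) = -1 := by
  rw [quadraticChar_neg_one_iff_not_isSquare, FiniteField.isSquare_neg_one_iff]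
  simpa using hF

theorem chi_neg (hF : Fintype.card F % 4 = 3) (a : F) : quadraticChar F (-a) = -quadraticChar F a := by
  rw [neg_eq_neg_one_mul, map_mul, chi_neg_one hF]
  ring

theorem chi_sq {a : F} (ha : a ≠ 0) : quadraticChar F a * quadraticChar F a = 1 := by
  rcases quadraticChar_dichotomy ha with h | h <;> rw [h] <;> norm_num

theorem chi_sum (hF : Fintype.card F % 4 = 3) (b : F) : ∑ a : F, quadraticChar F (a - b) = 0 := by
  rw [← quadraticChar_sum_zero (char_ne_two hF)]
  exact Fintype.sum_equiv (Equiv.subRight b) _ _ fun _ => rfl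

theorem chi_sum' (hF : Fintype.card F % 4 = 3) (b : F) : ∑ a : F, quadraticChar F (b - a) = 0 := by
  rw [← quadraticChar_sum_zero (char_ne_two hF)]
  exact Fintype.sum_equiv (Equiv.subLeft b) _ _ fun _ => rfl

theorem jacobsthal (hF : Fintype.card F % 4 = 3) {b c : F} (hbc : b ≠ c) :
    ∑ a : F, quadraticChar F (a - b) * quadraticChar F (a - c) = -1 := by
  have h1 := jacobiSum_nontrivial_inv (quadraticChar_ne_one (char_ne_two hF))
  rw [(quadraticChar_isQuadratic F).inv, chi_neg_one hF, jacobiSum] at h1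
  have hd : c - b ≠ 0 := sub_ne_zero.2 hbc.symm
  have h2 : ∑ a : F, quadraticChar F (a - b) * quadraticChar F (a - c) =
      ∑ x : F, -(quadraticChar F x * quadraticChar F (1 - x)) := by
    refine (Fintype.sum_equiv ((Equiv.mulLeft₀ (c - b) hd).trans (Equiv.addRight b)) _ _
      fun x => ?_).symm
    have e0 : ((Equiv.mulLeft₀ (c - b) hd).trans (Equiv.addRight b)) x = (c - b) * x + b := rfl
    rw [e0]
    have e1 : (c - b) * x + b - b = (c - b) * x := by ring
    have e2 : (c - b) * x + b - c = -((c - b) * (1 - x)) := by ring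
    rw [e1, e2, chi_neg hF, map_mul, map_mul]
    have := chi_sq hd
    linear_combination (quadraticChar F x * quadraticChar F (1 - x)) * this
  rw [h2, sum_neg_distrib, h1]
  norm_num

/-- the entries of the Hadamard matrix of Paley -/
def M : Option F → Option F → ℤ
  | none, none => 1
  | none, some _ => 1
  | some _, none => -1
  | some a, some b => (if a = b then 1 else 0) + quadraticChar F (a - b)

theorem M_pm (x y : Option F) : M x y = 1 ∨ M x y = -1 := by
  rcases x with _ | a <;> rcases y with _ | b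
  · left; rfl
  · left; rfl
  · right; rfl
  · by_cases h : a = b
    · left; simp [M, h]
    · have : a - b ≠ 0 := sub_ne_zero.2 h
      rcases quadraticChar_dichotomy this with h1 | h1 <;> simp [M, h, h1]

theorem col_sum (hF : Fintype.card F % 4 = 3) {y y' : Option F} (h : y ≠ y') :
    ∑ x, M x y * M x y' = 0 := by
  rw [Fintype.sum_option]
  rcases y with _ | b <;> rcases y' with _ | c
  · exact absurd rfl h
  · simp only [M, neg_mul, one_mul, sum_neg_distrib, sum_add_distrib, chi_sum hF,
      sum_ite_eq', mem_univ, if_true]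
    norm_num
  · simp only [M, mul_neg, mul_one, sum_neg_distrib, sum_add_distrib, chi_sum hF,
      sum_ite_eq', mem_univ, if_true]
    norm_num
  · have hbc : b ≠ c := fun e => h (by rw [e])
    have e1 : ∀ a : F, ((if a = b then (1 : ℤ) else 0) + quadraticChar F (a - b)) *
        ((if a = c then 1 else 0) + quadraticChar F (a - c)) =
        quadraticChar F (a - b) * quadraticChar F (a - c) +
        ((if a = b then quadraticChar F (b - c) else 0) +
          (if a = c then quadraticChar F (c - b) else 0)) := by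
      intro a
      by_cases h1 : a = b
      · subst h1
        simp [hbc]
      · by_cases h2 : a = c
        · subst h2
          simp [h1]
        · simp [h1, h2]
    simp only [M, mul_one, e1, sum_add_distrib, jacobsthal hF hbc, sum_ite_eq', mem_univ, if_true]
    rw [← neg_sub b c, chi_neg hF]
    ring

theorem row_sum (hF : Fintype.card F % 4 = 3) {x x' : Option F} (h : x ≠ x') :
    ∑ y, M x y * M x' y = 0 := by
  rw [Fintype.sum_option]
  rcases x with _ | b <;> rcases x' with _ | c
  · exact absurd rfl h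
  · simp only [M, one_mul, sum_add_distrib, chi_sum' hF, sum_ite_eq, mem_univ, if_true]
    norm_num
  · simp only [M, mul_one, sum_add_distrib, chi_sum' hF, sum_ite_eq, mem_univ, if_true]
    norm_num
  · have hbc : b ≠ c := fun e => h (by rw [e])
    have e0 : ∀ a : F, quadraticChar F (b - a) * quadraticChar F (c - a) =
        quadraticChar F (a - b) * quadraticChar F (a - c) := by
      intro a
      rw [← neg_sub a b, ← neg_sub a c, chi_neg hF, chi_neg hF]
      ring
    have e1 : ∀ a : F, ((if b = a then (1 : ℤ) else 0) + quadraticChar F (b - a)) *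
        ((if c = a then 1 else 0) + quadraticChar F (c - a)) =
        quadraticChar F (a - b) * quadraticChar F (a - c) +
        ((if b = a then quadraticChar F (c - b) else 0) +
          (if c = a then quadraticChar F (b - c) else 0)) := by
      intro a
      rw [← e0]
      by_cases h1 : b = a
      · subst h1
        simp [hbc.symm]
      · by_cases h2 : c = a
        · subst h2
          simp [h1]
        · simp [h1, h2]
    simp only [M, e1, sum_add_distrib, jacobsthal hF hbc, sum_ite_eq, mem_univ, if_true]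
    rw [← neg_sub b c, chi_neg hF]
    ring

/-- the matrix over `ℤ / 2` -/
def hP (x y : Option F) : ZMod 2 := if M x y = 1 then 0 else 1

theorem hP_sub_eq_zero (x y x' y' : Option F) :
    hP x y - hP x' y' = 0 ↔ M x y * M x' y' = 1 := by
  unfold hP
  rcases M_pm x y with h | h <;> rcases M_pm x' y' with h' | h' <;> rw [h, h'] <;> decide

theorem hP_sub_eq_one (x y x' y' : Option F) :
    hP x y - hP x' y' = 1 ↔ M x y * M x' y' = -1 := by
  unfold hP
  rcases M_pm x y with h | h <;> rcases M_pm x' y' with h' | h' <;> rw [h, h'] <;> decide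

theorem count_of_sum {X : Type} [Fintype X] (f : X → ℤ) (hf : ∀ x, f x = 1 ∨ f x = -1)
    (h : ∑ x, f x = 0) {m : ℕ} (hm : Fintype.card X = 2 * m) :
    Nat.card {x // f x = 1} = m ∧ Nat.card {x // f x = -1} = m := by
  classical
  have h1 : ∀ x, f x = (if f x = 1 then (1 : ℤ) else 0) - (if f x = -1 then (1 : ℤ) else 0) := by
    intro x
    rcases hf x with h | h <;> rw [h] <;> decide
  have h2 : ∀ x : X, (1 : ℤ) = (if f x = 1 then (1 : ℤ) else 0) + (if f x = -1 then (1 : ℤ) else 0) := by
    intro x
    rcases hf x with h | h <;> rw [h] <;> decide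
  have h3 : ∑ x, f x = (Nat.card {x // f x = 1} : ℤ) - (Nat.card {x // f x = -1} : ℤ) := by
    rw [sum_congr rfl fun x _ => h1 x, sum_sub_distrib]
    simp only [sum_boole, Nat.card_eq_fintype_card, Fintype.card_subtype]
  have h4 : (Fintype.card X : ℤ) =
      (Nat.card {x // f x = 1} : ℤ) + (Nat.card {x // f x = -1} : ℤ) := by
    have : (Fintype.card X : ℤ) = ∑ _x : X, (1 : ℤ) := by simp
    rw [this, sum_congr rfl fun x _ => h2 x, sum_add_distrib]
    simp only [sum_boole, Nat.card_eq_fintype_card, Fintype.card_subtype]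
  rw [h] at h3
  rw [hm] at h4
  push_cast at h4
  omega

theorem gh1 (hF : Fintype.card F % 4 = 3) :
    HalfGH (hP (F := F)) ((Fintype.card F + 1) / 2) := by
  have hc : Fintype.card (Option F) = 2 * ((Fintype.card F + 1) / 2) := by
    rw [Fintype.card_option]; omega
  refine ⟨hc, hc, fun y y' hy d => ?_⟩
  obtain ⟨h1, h2⟩ := count_of_sum (fun x : Option F => M x y * M x y')
    (fun x => by rcases M_pm x y with h | h <;> rcases M_pm x y' with h' | h' <;> rw [h, h'] <;> decide)
    (col_sum hF hy) hc
  have hd : d = 0 ∨ d = 1 := by revert d; decide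
  rcases hd with rfl | rfl
  · simp only [hP_sub_eq_zero]; exact h1
  · simp only [hP_sub_eq_one]; exact h2

theorem gh2 (hF : Fintype.card F % 4 = 3) :
    HalfGH (fun y x => hP (F := F) x y) ((Fintype.card F + 1) / 2) := by
  have hc : Fintype.card (Option F) = 2 * ((Fintype.card F + 1) / 2) := by
    rw [Fintype.card_option]; omega
  refine ⟨hc, hc, fun y y' hy d => ?_⟩
  obtain ⟨h1, h2⟩ := count_of_sum (fun x : Option F => M y x * M y' x)
    (fun x => by rcases M_pm y x with h | h <;> rcases M_pm y' x with h' | h' <;> rw [h, h'] <;> decide)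
    (row_sum hF hy) hc
  have hd : d = 0 ∨ d = 1 := by revert d; decide
  rcases hd with rfl | rfl
  · simp only [hP_sub_eq_zero]; exact h1
  · simp only [hP_sub_eq_one]; exact h2

/-- the translation `a ↦ a + c` -/
def sT (c : F) : Option F → Option F
  | none => none
  | some a => some (a + c)

theorem M_T (c : F) (x y : Option F) : M (sT c x) (sT c y) = M x y := by
  rcases x with _ | a <;> rcases y with _ | b <;> simp [M, sT]

theorem sT_inj (c : F) : Function.Injective (sT c) := by
  intro x y h
  rcases x with _ | a <;> rcases y with _ | b <;> simp [sT] at h ⊢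
  exact h

/-- the inversion `a ↦ - 1 / a` -/
def sW : Option F → Option F
  | none => some 0
  | some a => if a = 0 then none else some (-a⁻¹)

/-- the sign of the inversion -/
def eW : Option F → ℤ
  | none => 1
  | some a => if a = 0 then -1 else quadraticChar F a

theorem M_W (hF : Fintype.card F % 4 = 3) (x y : Option F) :
    M (sW x) (sW y) = eW x * eW y * M x y := by
  rcases x with _ | a <;> rcases y with _ | b
  · simp [M, sW, eW]
  · by_cases hb : b = 0
    · simp [M, sW, eW, hb]
    · have h1 : (-b)⁻¹ ≠ 0 := inv_ne_zero (neg_ne_zero.2 hb)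
      have h2 : quadraticChar F b⁻¹ = quadraticChar F b := by
        have h3 : b⁻¹ = b * (b⁻¹) ^ 2 := by field_simp
        rw [h3, map_mul, quadraticChar_sq_one' (inv_ne_zero hb), mul_one]
      have h4 : (0 : F) ≠ -b⁻¹ := by
        intro e
        exact inv_ne_zero hb (neg_eq_zero.1 e.symm)
      simp [M, sW, eW, hb, h2]
  · by_cases ha : a = 0
    · simp [M, sW, eW, ha]
    · have h2 : quadraticChar F a⁻¹ = quadraticChar F a := by
        have h3 : a⁻¹ = a * (a⁻¹) ^ 2 := by field_simp
        rw [h3, map_mul, quadraticChar_sq_one' (inv_ne_zero ha), mul_one]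
      simp [M, sW, eW, ha, chi_neg hF, h2]
  · by_cases ha : a = 0
    · by_cases hb : b = 0
      · simp [M, sW, eW, ha, hb]
      · have : (0 : F) ≠ b := Ne.symm hb
        simp only [M, sW, eW, ha, hb, if_true, if_false, this, zero_sub, chi_neg hF]
        have := chi_sq hb
        linear_combination -this
    · by_cases hb : b = 0
      · simp only [M, sW, eW, ha, hb, if_true, if_false, sub_zero]
        have := chi_sq ha
        linear_combination this
      · by_cases hab : a = b
        · subst hab
          have := chi_sq ha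
          simp only [M, sW, eW, ha, if_false, if_true, sub_self, quadraticChar_zero]
          linear_combination -this
        · have h5 : ¬ (-a⁻¹ = -b⁻¹) := fun e => hab (inv_injective (neg_injective e))
          have h6 : -a⁻¹ - -b⁻¹ = (a * b) * (a - b) * ((a * b)⁻¹) ^ 2 := by
            field_simp
            ring
          simp only [M, sW, eW, ha, hb, hab, if_false, h5]
          rw [h6, map_mul, map_mul, quadraticChar_sq_one' (inv_ne_zero (mul_ne_zero ha hb)), map_mul]
          ring

theorem sW_inj : Function.Injective (sW (F := F)) := by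
  intro x y h
  rcases x with _ | a <;> rcases y with _ | b
  · rfl
  · exfalso
    by_cases hb : b = 0
    · simp [sW, hb] at h
    · simp only [sW, hb, if_false, Option.some.injEq] at h
      exact inv_ne_zero hb (neg_eq_zero.1 h.symm)
  · exfalso
    by_cases hb : a = 0
    · simp [sW, hb] at h
    · simp only [sW, hb, if_false, Option.some.injEq] at h
      exact inv_ne_zero hb (neg_eq_zero.1 h)
  · by_cases ha : a = 0 <;> by_cases hb : b = 0
    · rw [ha, hb]
    · simp [sW, ha, hb] at h
    · simp [sW, ha, hb] at h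
    · simp only [sW, ha, hb, if_false, Option.some.injEq] at h
      rw [inv_injective (neg_injective h)]

/-- the sign as an element of `ℤ / 2` -/
def z (e : ℤ) : ZMod 2 := if e = 1 then 0 else 1

theorem eW_pm (x : Option F) : eW x = 1 ∨ eW x = -1 := by
  rcases x with _ | a
  · left; rfl
  · by_cases ha : a = 0
    · right; simp [eW, ha]
    · simp only [eW, ha, if_false]
      exact quadraticChar_dichotomy ha

theorem hP_T (c : F) (x y : Option F) : hP (sT c x) (sT c y) = hP x y := by
  unfold hP
  rw [M_T]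

theorem hP_W (hF : Fintype.card F % 4 = 3) (x y : Option F) :
    hP (sW x) (sW y) = 1 * hP x y + z (eW x) + z (eW y) := by
  unfold hP z
  rw [M_W hF]
  rcases eW_pm x with h1 | h1 <;> rcases eW_pm y with h2 | h2 <;> rcases M_pm x y with h3 | h3 <;>
    rw [h1, h2, h3] <;> decide

theorem exT (c : F) : ∃ a ∈ autGroup (Inc (hP (F := F))), ∀ x t, a (x, t) = (sT c x, t) := by
  obtain ⟨a, ha, h⟩ := exists_aut (hP (F := F)) (sT c) (sT c) (fun _ => 0) (fun _ => 0) 1
    (sT_inj c) (sT_inj c) (by ring) (fun x y => by rw [hP_T]; ring)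
  exact ⟨a, ha, fun x t => by rw [h]; simp⟩

theorem exW (hF : Fintype.card F % 4 = 3) :
    ∃ a ∈ autGroup (Inc (hP (F := F))), ∀ x t, a (x, t) = (sW x, t + z (eW x)) := by
  obtain ⟨a, ha, h⟩ := exists_aut (hP (F := F)) sW sW (fun x => z (eW x)) (fun x => z (eW x)) 1
    sW_inj sW_inj (by ring) (fun x y => hP_W hF x y)
  exact ⟨a, ha, fun x t => by rw [h, one_mul, CharTwo.sub_eq_add]⟩

/-- transitivity on the points -/
theorem trans_pt (hF : Fintype.card F % 4 = 3) (p : Option F × ZMod 2) :
    ∃ a ∈ autGroup (Inc (hP (F := F))), a p = (none, 0) := by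
  obtain ⟨x, t⟩ := p
  obtain ⟨a, ha, h⟩ : ∃ a ∈ autGroup (Inc (hP (F := F))), ∃ t', a (x, t) = (none, t') := by
    rcases x with _ | b
    · exact ⟨1, one_mem _, t, rfl⟩
    · obtain ⟨a, ha, h1⟩ := exT (-b)
      obtain ⟨w, hw, h2⟩ := exW hF
      refine ⟨w * a, mul_mem hw ha, t + z (eW (some (0 : F))), ?_⟩
      rw [Equiv.Perm.mul_apply, h1, h2]
      simp [sT, sW]
  obtain ⟨t', h⟩ := h
  obtain ⟨c, hc, h3⟩ := exists_transl (hP (F := F)) (-t')
  refine ⟨c * a, mul_mem hc ha, ?_⟩
  rw [Equiv.Perm.mul_apply, h, h3, add_neg_cancel]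

/-- every joined pair can be mapped to the pair `{(∞, 0), (0, 0)}` -/
theorem trans_joined (hF : Fintype.card F % 4 = 3) (p q : Option F × ZMod 2)
    (h : Joined (Inc (hP (F := F))) p q) :
    ∃ a ∈ autGroup (Inc (hP (F := F))),
      (a p = (none, 0) ∧ a q = (some 0, 0)) ∨ (a p = (some 0, 0) ∧ a q = (none, 0)) := by
  have hne := fst_ne h
  obtain ⟨a, ha, h1⟩ := trans_pt hF p
  obtain ⟨y, t, h2⟩ : ∃ y t, a q = (some y, t) := by
    -- `a` is an automorphism, so `a p`, `a q` are joined again
    have hj : Joined (Inc (hP (F := F))) (a p) (a q) := by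
      obtain ⟨h3, b, h4, h5⟩ := h
      obtain ⟨c, hc⟩ := ha.1 b
      refine ⟨fun e => h3 (a.injective e), c, ?_, ?_⟩
      · have : a p ∈ {x | Inc (hP (F := F)) x c} := by rw [hc]; exact ⟨p, h4, rfl⟩
        exact this
      · have : a q ∈ {x | Inc (hP (F := F)) x c} := by rw [hc]; exact ⟨q, h5, rfl⟩
        exact this
    have h6 := fst_ne hj
    rw [h1] at h6
    rcases h7 : a q with ⟨_ | y, t⟩
    · rw [h7] at h6
      exact absurd rfl h6
    · exact ⟨y, t, rfl⟩
  obtain ⟨b, hb, h3⟩ := exT (-y)
  have ht : ∀ t : ZMod 2, t = 0 ∨ t = 1 := by decide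
  have ht := ht t
  rcases ht with rfl | rfl
  · refine ⟨b * a, mul_mem hb ha, Or.inl ⟨?_, ?_⟩⟩
    · rw [Equiv.Perm.mul_apply, h1, h3]; rfl
    · rw [Equiv.Perm.mul_apply, h2, h3]; simp [sT]
  · obtain ⟨c, hc, h4⟩ := exists_transl (hP (F := F)) 1
    obtain ⟨w, hw, h5⟩ := exW hF
    refine ⟨w * b * a, mul_mem (mul_mem hw hb) ha, Or.inr ⟨?_, ?_⟩⟩
    · rw [Equiv.Perm.mul_apply, Equiv.Perm.mul_apply, h1, h3]
      simp only [sT]
      rw [h5]
      simp [sW, z, eW]
    · rw [Equiv.Perm.mul_apply, Equiv.Perm.mul_apply, h2, h3]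
      have : sT (-y) (some y) = some 0 := by simp [sT]
      rw [this, h5]
      have h6 : (1 : ZMod 2) + z (eW (some (0 : F))) = 0 := by
        simp [z, eW]
        decide
      rw [h6]
      simp [sW]

/-- every non-joined pair can be mapped to the pair `{(∞, 0), (∞, 1)}` -/
theorem trans_nonjoined (hF : Fintype.card F % 4 = 3) (p q : Option F × ZMod 2)
    (h : NonJoined (Inc (hP (F := F))) p q) :
    ∃ a ∈ autGroup (Inc (hP (F := F))), a p = (none, 0) ∧ a q = (none, 1) := by
  have hμ : 1 ≤ (Fintype.card F + 1) / 2 := by omega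
  obtain ⟨a, ha, h1⟩ := trans_pt hF p
  have hj : NonJoined (Inc (hP (F := F))) (a p) (a q) := by
    obtain ⟨h3, h4⟩ := h
    refine ⟨fun e => h3 (a.injective e), ?_⟩
    rintro ⟨c, h5, h6⟩
    refine h4 ?_
    obtain ⟨b, hb⟩ := ha.2 c
    refine ⟨b, ?_, ?_⟩
    · have : p ∈ {x | Inc (hP (F := F)) x b} := by rw [hb]; exact ⟨a p, h5, a.symm_apply_apply p⟩
      exact this
    · have : q ∈ {x | Inc (hP (F := F)) x b} := by rw [hb]; exact ⟨a q, h6, a.symm_apply_apply q⟩
      exact this
  obtain ⟨h5, h6⟩ := fst_eq hμ (gh2 hF) hj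
  refine ⟨a, ha, h1, ?_⟩
  rw [h1] at h5 h6
  refine Prod.ext h5.symm ?_
  simp only at h6 ⊢
  have : ∀ t : ZMod 2, 0 ≠ t → t = 1 := by decide
  exact this _ h6

end Paley

theorem paley {q : ℕ} (hq : IsPrimePow q) (h4 : q % 4 = 3) (h2 : ∀ k : ℕ, q + 1 ≠ 2 ^ k) :
    Counterexample 2 ((q + 1) / 2) := by
  classical
  obtain ⟨p, n, hp, hn, rfl⟩ := hq
  haveI : Fact p.Prime := ⟨hp.nat_prime⟩
  let F : Type := GaloisField p n
  haveI : Fintype F := Fintype.ofFinite F
  have hcard : Fintype.card F = p ^ n := by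
    rw [← Nat.card_eq_fintype_card]
    exact GaloisField.card p n hn.ne'
  have hF : Fintype.card F % 4 = 3 := by rw [hcard]; exact h4
  have h7 : 7 ≤ p ^ n := by
    have := h2 2
    omega
  refine ⟨Option F × ZMod 2, Option F × ZMod 2, inferInstance, inferInstance, Inc (hP (F := F)),
    autGroup (Inc (hP (F := F))), ?_, autGroup_isAut _, ?_, ?_, ?_⟩
  · rw [← hcard]
    exact isSymmetricNet le_rfl (by omega) (by omega) (gh1 hF) (gh2 hF)
  · intro p q p' q' h h'
    obtain ⟨a, ha, h1⟩ := trans_joined hF p q h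
    obtain ⟨b, hb, h2⟩ := trans_joined hF p' q' h'
    refine ⟨b⁻¹ * a, mul_mem (inv_mem hb) ha, ?_⟩
    simp only [Equiv.Perm.mul_apply, Equiv.Perm.inv_eq_iff_eq]
    rcases h1 with ⟨e1, e2⟩ | ⟨e1, e2⟩ <;> rcases h2 with ⟨e3, e4⟩ | ⟨e3, e4⟩
    · left; exact ⟨e1.trans e3.symm, e2.trans e4.symm⟩
    · right; exact ⟨e1.trans e4.symm, e2.trans e3.symm⟩
    · right; exact ⟨e1.trans e4.symm, e2.trans e3.symm⟩
    · left; exact ⟨e1.trans e3.symm, e2.trans e4.symm⟩
  · intro p q p' q' h h'
    obtain ⟨a, ha, e1, e2⟩ := trans_nonjoined hF p q h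
    obtain ⟨b, hb, e3, e4⟩ := trans_nonjoined hF p' q' h'
    refine ⟨b⁻¹ * a, mul_mem (inv_mem hb) ha, Or.inl ?_⟩
    simp only [Equiv.Perm.mul_apply, Equiv.Perm.inv_eq_iff_eq]
    exact ⟨e1.trans e3.symm, e2.trans e4.symm⟩
  · intro hc
    obtain ⟨r, d, hr, hd, h⟩ := card_isClassical hc
    rw [Fintype.card_prod, Fintype.card_option, ZMod.card, hcard] at h
    obtain ⟨l, m, hl, hm, rfl⟩ := hr
    have h8 : (2 : ℕ) ∣ (l ^ m) ^ d := by rw [← h]; exact Dvd.intro_left _ rfl
    have h9 : 2 ∣ l := by
      have := Nat.prime_two.dvd_of_dvd_pow h8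
      exact Nat.prime_two.dvd_of_dvd_pow this
    have h10 : l = 2 := ((Nat.prime_dvd_prime_iff_eq Nat.prime_two hl.nat_prime).1 h9).symm
    rw [h10, ← pow_mul] at h
    have h11 : 1 ≤ m * d := by
      have : 0 < m * d := Nat.mul_pos hm (by omega)
      omega
    refine h2 (m * d - 1) ?_
    have h12 : 2 ^ (m * d) = 2 ^ (m * d - 1) * 2 := by
      rw [← pow_succ]
      congr 1
      omega
    rw [h12] at h
    exact Nat.eq_of_mul_eq_mul_right (by norm_num) h

end Pool.Agent.Q274.Net
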