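import Mathlib
import Pool.Agent.Q274.Net.GH

/-!
# The symmetric `(3, 2)`-net
-/

set_option autoImplicit false

namespace Pool.Agent.Q274.Net

open Finset

/-- the generalized Hadamard matrix of order `6` over `ℤ / 3` -/
def h3 : Fin 6 → Fin 6 → ZMod 3 :=
  ![![0, 0, 0, 0, 0, 0],
    ![0, 0, 1, 1, 2, 2],
    ![0, 1, 0, 2, 2, 1],
    ![0, 1, 2, 0, 1, 2],
    ![0, 2, 2, 1, 0, 1],
    ![0, 2, 1, 2, 1, 0]]

/-- table -/
def sX : Fin 6 → Fin 6 → Fin 6 :=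
  ![![0, 1, 2, 3, 4, 5],
    ![1, 0, 2, 3, 5, 4],
    ![2, 0, 1, 5, 3, 4],
    ![3, 0, 1, 4, 2, 5],
    ![4, 0, 1, 2, 3, 5],
    ![5, 0, 1, 3, 2, 4]]

/-- table -/
def tX : Fin 6 → Fin 6 → Fin 6 :=
  ![![0, 1, 2, 3, 4, 5],
    ![0, 1, 4, 5, 2, 3],
    ![0, 2, 4, 3, 1, 5],
    ![0, 3, 5, 2, 1, 4],
    ![4, 0, 2, 1, 5, 3],
    ![5, 0, 3, 1, 4, 2]]

/-- table -/
def fX : Fin 6 → Fin 6 → ZMod 3 :=
  ![![0, 0, 0, 0, 0, 0],
    ![0, 0, 0, 0, 0, 0],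
    ![0, 0, 0, 0, 0, 0],
    ![0, 0, 0, 0, 0, 0],
    ![0, 0, 2, 2, 1, 1],
    ![0, 0, 2, 2, 1, 1]]

/-- table -/
def gX : Fin 6 → Fin 6 → ZMod 3 :=
  ![![0, 0, 0, 0, 0, 0],
    ![0, 0, 2, 2, 1, 1],
    ![0, 0, 2, 2, 1, 1],
    ![0, 0, 2, 2, 1, 1],
    ![0, 0, 2, 2, 1, 1],
    ![0, 0, 2, 2, 1, 1]]

/-- table -/
def sJ : Fin 15 → Fin 6 → Fin 6 :=
  ![![0, 1, 2, 3, 4, 5],
    ![0, 1, 2, 5, 3, 4],
    ![0, 1, 2, 4, 5, 3],
    ![0, 2, 1, 5, 4, 3],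
    ![0, 2, 1, 3, 5, 4],
    ![0, 2, 1, 4, 3, 5],
    ![0, 3, 1, 4, 5, 2],
    ![0, 3, 1, 2, 4, 5],
    ![0, 3, 1, 5, 2, 4],
    ![0, 4, 1, 2, 5, 3],
    ![0, 4, 1, 3, 2, 5],
    ![0, 4, 1, 5, 3, 2],
    ![0, 5, 1, 3, 4, 2],
    ![0, 5, 1, 2, 3, 4],
    ![0, 5, 1, 4, 2, 3]]

/-- table -/
def tJ : Fin 15 → Fin 6 → Fin 6 :=
  ![![0, 1, 2, 3, 4, 5],
    ![5, 4, 1, 0, 2, 3],
    ![3, 2, 4, 5, 1, 0],
    ![0, 2, 1, 5, 4, 3],
    ![3, 4, 2, 0, 1, 5],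
    ![5, 1, 4, 3, 2, 0],
    ![0, 3, 1, 4, 5, 2],
    ![2, 5, 3, 0, 1, 4],
    ![4, 1, 5, 2, 3, 0],
    ![4, 0, 5, 3, 2, 1],
    ![1, 2, 0, 4, 5, 3],
    ![3, 5, 2, 1, 0, 4],
    ![5, 0, 4, 2, 3, 1],
    ![1, 3, 0, 5, 4, 2],
    ![2, 4, 3, 1, 0, 5]]

/-- table -/
def fJ : Fin 15 → Fin 6 → ZMod 3 :=
  ![![0, 0, 0, 0, 0, 0],
    ![0, 2, 1, 0, 2, 1],
    ![0, 1, 2, 1, 2, 0],
    ![0, 0, 0, 0, 0, 0],
    ![0, 2, 1, 0, 2, 1],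
    ![0, 1, 2, 1, 2, 0],
    ![0, 0, 0, 0, 0, 0],
    ![0, 2, 1, 0, 2, 1],
    ![0, 1, 2, 1, 2, 0],
    ![0, 0, 2, 2, 1, 1],
    ![0, 2, 0, 1, 1, 2],
    ![0, 1, 1, 2, 0, 2],
    ![0, 0, 2, 2, 1, 1],
    ![0, 2, 0, 1, 1, 2],
    ![0, 1, 1, 2, 0, 2]]

/-- table -/
def gJ : Fin 15 → Fin 6 → ZMod 3 :=
  ![![0, 0, 0, 0, 0, 0],
    ![0, 0, 0, 0, 0, 0],
    ![0, 0, 0, 0, 0, 0],
    ![0, 0, 0, 0, 0, 0],
    ![0, 0, 0, 0, 0, 0],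
    ![0, 0, 0, 0, 0, 0],
    ![0, 0, 0, 0, 0, 0],
    ![0, 0, 0, 0, 0, 0],
    ![0, 0, 0, 0, 0, 0],
    ![0, 0, 0, 0, 0, 0],
    ![0, 0, 0, 0, 0, 0],
    ![0, 0, 0, 0, 0, 0],
    ![0, 0, 0, 0, 0, 0],
    ![0, 0, 0, 0, 0, 0],
    ![0, 0, 0, 0, 0, 0]]

theorem gh3 : HalfGH h3 2 := by
  refine ⟨rfl, rfl, ?_⟩
  intro y y' hy d
  rw [Nat.card_eq_fintype_card, Fintype.card_subtype]
  revert y y' d
  decide +kernel

theorem gh3' : HalfGH (fun y x => h3 x y) 2 := by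
  refine ⟨rfl, rfl, ?_⟩
  intro y y' hy d
  rw [Nat.card_eq_fintype_card, Fintype.card_subtype]
  revert y y' d
  decide +kernel

theorem exX : ∀ y : Fin 6, ∃ a ∈ autGroup (Inc h3), ∀ t, ∃ t', a (0, t) = (y, t') := by
  intro y
  have hs : ∀ i, Function.Injective (sX i) := by decide +kernel
  have ht : ∀ i, Function.Injective (tX i) := by decide +kernel
  have h : ∀ i x y, h3 (sX i x) (tX i y) = 1 * h3 x y + fX i x + gX i y := by decide +kernel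
  have h0 : ∀ i, sX i 0 = i := by decide +kernel
  obtain ⟨a, ha, h1⟩ := exists_aut h3 (sX y) (tX y) (fX y) (gX y) 1 (hs y) (ht y) (by ring) (h y)
  refine ⟨a, ha, fun t => ⟨1 * t - fX y 0, ?_⟩⟩
  rw [h1, h0]

theorem exJ : ∀ (y : Fin 6) (b : ZMod 3), y ≠ 0 → ∃ a ∈ autGroup (Inc h3),
    a (0, 0) = (0, 0) ∧ a (1, 0) = (y, b) := by
  intro y b hy
  have hs : ∀ i, Function.Injective (sJ i) := by decide +kernel
  have ht : ∀ i, Function.Injective (tJ i) := by decide +kernel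
  have h : ∀ i x y, h3 (sJ i x) (tJ i y) = 1 * h3 x y + fJ i x + gJ i y := by decide +kernel
  have h0 : ∀ i, sJ i 0 = 0 ∧ fJ i 0 = 0 := by decide +kernel
  have h2 : ∀ (y : Fin 6) (b : ZMod 3), y ≠ 0 → ∃ i, sJ i 1 = y ∧ - fJ i 1 = b := by decide +kernel
  obtain ⟨i, h3', h4⟩ := h2 y b hy
  obtain ⟨a, ha, h1⟩ := exists_aut h3 (sJ i) (tJ i) (fJ i) (gJ i) 1 (hs i) (ht i) (by ring) (h i)
  refine ⟨a, ha, ?_, ?_⟩
  · rw [h1, (h0 i).1, (h0 i).2]; simp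
  · rw [h1, h3', ← h4]; simp

/-- transitivity on the points -/
theorem trans_pt3 (p : Fin 6 × ZMod 3) : ∃ a ∈ autGroup (Inc h3), a (0, 0) = p := by
  obtain ⟨y, b⟩ := p
  obtain ⟨a, ha, h⟩ := exX y
  obtain ⟨t', h1⟩ := h 0
  obtain ⟨c, hc, h2⟩ := exists_transl h3 (b - t')
  refine ⟨c * a, mul_mem hc ha, ?_⟩
  rw [Equiv.Perm.mul_apply, h1, h2]
  simp

theorem trans_joined3 (p q : Fin 6 × ZMod 3) (h : Joined (Inc h3) p q) :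
    ∃ a ∈ autGroup (Inc h3), a (0, 0) = p ∧ a (1, 0) = q := by
  obtain ⟨a, ha, h1⟩ := trans_pt3 p
  have hj : Joined (Inc h3) (a.symm p) (a.symm q) := by
    obtain ⟨h3, b, h4, h5⟩ := h
    obtain ⟨c, hc⟩ := ha.2 b
    refine ⟨fun e => h3 (a.symm.injective e), c, ?_, ?_⟩
    · have : a.symm p ∈ {x | Inc Net.h3 x c} := by rw [hc]; exact ⟨p, h4, rfl⟩
      exact this
    · have : a.symm q ∈ {x | Inc Net.h3 x c} := by rw [hc]; exact ⟨q, h5, rfl⟩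
      exact this
  have h2 : a.symm p = (0, 0) := by rw [Equiv.symm_apply_eq, h1]
  have h6 := fst_ne hj
  rw [h2] at h6
  obtain ⟨b, hb, h7, h8⟩ := exJ (a.symm q).1 (a.symm q).2 (Ne.symm h6)
  refine ⟨a * b, mul_mem ha hb, ?_, ?_⟩
  · rw [Equiv.Perm.mul_apply, h7, h1]
  · rw [Equiv.Perm.mul_apply, h8]
    exact a.apply_symm_apply q

theorem trans_nonjoined3 (p q : Fin 6 × ZMod 3) (h : NonJoined (Inc h3) p q) :
    ∃ a ∈ autGroup (Inc h3), (a (0, 0) = p ∧ a (0, 1) = q) ∨ (a (0, 0) = q ∧ a (0, 1) = p) := by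
  obtain ⟨h1, h2⟩ := fst_eq (by norm_num) gh3' h
  obtain ⟨x, s⟩ := p
  obtain ⟨y, t⟩ := q
  simp only at h1 h2
  subst h1
  have key : ∀ s t : ZMod 3, s ≠ t → t = s + 1 ∨ s = t + 1 := by decide
  -- an automorphism over the identity of the entries: it maps (0, t) to (x, t + c)
  obtain ⟨a, ha, h3⟩ : ∃ a ∈ autGroup (Inc Net.h3), ∃ c, ∀ t, a (0, t) = (x, t + c) := by
    have hs : ∀ i, Function.Injective (sX i) := by decide +kernel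
    have ht : ∀ i, Function.Injective (tX i) := by decide +kernel
    have h : ∀ i x y, Net.h3 (sX i x) (tX i y) = 1 * Net.h3 x y + fX i x + gX i y := by
      decide +kernel
    have h0 : ∀ i, sX i 0 = i := by decide +kernel
    obtain ⟨a, ha, h1⟩ := exists_aut Net.h3 (sX x) (tX x) (fX x) (gX x) 1 (hs x) (ht x) (by ring)
      (h x)
    refine ⟨a, ha, - fX x 0, fun t => ?_⟩
    rw [h1, h0]
    ring_nf
  obtain ⟨c, h4⟩ := h3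
  rcases key s t h2 with rfl | rfl
  · obtain ⟨d, hd, h5⟩ := exists_transl Net.h3 (s - c)
    refine ⟨d * a, mul_mem hd ha, Or.inl ⟨?_, ?_⟩⟩
    · rw [Equiv.Perm.mul_apply, h4, h5]
      ring_nf
    · rw [Equiv.Perm.mul_apply, h4, h5]
      ring_nf
  · obtain ⟨d, hd, h5⟩ := exists_transl Net.h3 (t - c)
    refine ⟨d * a, mul_mem hd ha, Or.inr ⟨?_, ?_⟩⟩
    · rw [Equiv.Perm.mul_apply, h4, h5]
      ring_nf
    · rw [Equiv.Perm.mul_apply, h4, h5]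
      ring_nf

theorem inv_app {P : Type} (a : Equiv.Perm P) (x : P) : a⁻¹ (a x) = x := a.symm_apply_apply x

theorem three : Counterexample 3 2 := by
  refine ⟨Fin 6 × ZMod 3, Fin 6 × ZMod 3, inferInstance, inferInstance, Inc h3,
    autGroup (Inc h3), ?_, autGroup_isAut _, ?_, ?_, ?_⟩
  · exact isSymmetricNet (by norm_num) (by norm_num) (by norm_num) gh3 gh3'
  · intro p q p' q' h h'
    obtain ⟨a, ha, e1, e2⟩ := trans_joined3 p q h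
    obtain ⟨b, hb, e3, e4⟩ := trans_joined3 p' q' h'
    refine ⟨b * a⁻¹, mul_mem hb (inv_mem ha), Or.inl ⟨?_, ?_⟩⟩
    · rw [Equiv.Perm.mul_apply, ← e1, inv_app, e3]
    · rw [Equiv.Perm.mul_apply, ← e2, inv_app, e4]
  · intro p q p' q' h h'
    obtain ⟨a, ha, h1⟩ := trans_nonjoined3 p q h
    obtain ⟨b, hb, h2⟩ := trans_nonjoined3 p' q' h'
    refine ⟨b * a⁻¹, mul_mem hb (inv_mem ha), ?_⟩
    rcases h1 with ⟨e1, e2⟩ | ⟨e1, e2⟩ <;> rcases h2 with ⟨e3, e4⟩ | ⟨e3, e4⟩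
    · left
      constructor
      · rw [Equiv.Perm.mul_apply, ← e1, inv_app, e3]
      · rw [Equiv.Perm.mul_apply, ← e2, inv_app, e4]
    · right
      constructor
      · rw [Equiv.Perm.mul_apply, ← e1, inv_app, e3]
      · rw [Equiv.Perm.mul_apply, ← e2, inv_app, e4]
    · right
      constructor
      · rw [Equiv.Perm.mul_apply, ← e2, inv_app, e4]
      · rw [Equiv.Perm.mul_apply, ← e1, inv_app, e3]
    · left
      constructor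
      · rw [Equiv.Perm.mul_apply, ← e2, inv_app, e4]
      · rw [Equiv.Perm.mul_apply, ← e1, inv_app, e3]
  · intro hc
    obtain ⟨r, d, hr, hd, h⟩ := card_isClassical hc
    have h' : r ^ d = 2 * 3 ^ 2 := by rw [← h]; rfl
    obtain ⟨l, m, hl, hm, rfl⟩ := hr
    have h8 : (2 : ℕ) ∣ (l ^ m) ^ d := by rw [h']; exact Dvd.intro _ rfl
    have h9 : 2 ∣ l := Nat.prime_two.dvd_of_dvd_pow (Nat.prime_two.dvd_of_dvd_pow h8)
    have h10 : l = 2 := ((Nat.prime_dvd_prime_iff_eq Nat.prime_two hl.nat_prime).1 h9).symm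
    have h11 : (3 : ℕ) ∣ (l ^ m) ^ d := by rw [h']; norm_num
    have h12 : 3 ∣ l := Nat.prime_three.dvd_of_dvd_pow (Nat.prime_three.dvd_of_dvd_pow h11)
    rw [h10] at h12
    norm_num at h12

end Pool.Agent.Q274.Net
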